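import Pool.Agent.ACX.Top
import Pool.Agent.Helper28_ACX.Nine
import Pool.Agent.Helper97_ACE.Main
import Pool.Agent.Helper54_ANI.All

/-!
# ACX (MP_1906c1_mp): THE THEOREM, no hypotheses

`d ≥ 3`, `a > 0`, weak disorder: almost surely the spectrum of the Anderson Hamiltonian with Gaussian
potential in `(-(2 d - a), 2 d - a)` is purely absolutely continuous and fills this interval.
-/

set_option autoImplicit false

noncomputable section

namespace Pool.Agent.ACX.TOP

theorem nineS : NineStmt := fun d a c C hd ha hc hc' hC =>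
  (H28.nineT d a c C hd ha hc hc' hC).imp fun _ h =>
    ⟨h.ini, h.beg, h.mmon, h.flo, h.fin, h.rbeg, h.rmon, h.kil, h.rfin⟩

theorem iniVS : IniVStmt := fun d a c C hd ha hc hc' hC => AHH.H54.iniV d a c C hd ha hc hc' hC

/-- THE RESULT ON THE TORUS -/
theorem torT : TorStmt := tor ANI.H54.stbT nineS iniVS

/-- THE RESULT ON THE LATTICE -/
theorem latT : LatStmt := lat torT

/-- ABSOLUTELY CONTINUOUS SPECTRUM -/
theorem acxT : AcxStmt := acx latT ACE.ace

end Pool.Agent.ACX.TOP
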