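import Pool.Agent.ANP.StmtsD

/-!
# ACX: the protocol for a functional

The protocol of `ANP.PrtStmt`, but the truth has the variance `s - f`, `f = cl (kk (N + 1))` the last
clock: on the running and on the dead sites `a = T.V`, `r = T.s - f` (truncated). At the end the potential
is known completely. The set `F` is replaced by a function `φ` with values in `[0, 1]` and `ψ x`, the
cost of a dead site `x`. The structure `Ana` is used with `F = ∅` (`out` is trivial then).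
-/

set_option autoImplicit false

open MeasureTheory ProbabilityTheory

open scoped ENNReal NNReal BigOperators

noncomputable section

namespace Pool.Agent.ACX

open Pool.Agent.ANP

/-- PRT2. Proof: `H16.prt` with `∫ (φ - ∑_(x ∈ S) ψ x) d gm a r ≤ e + ∑_(j ≥ n) W j ∑_B QQ x j B` instead of
`Win F a r (min 1 (Phi x + 1/4))`. `S` the marked sites: at the start of super-stage `n < N` the sites
within `ρ n` of `enl (n - 1) (bad (n - 1)) 2` are marked, once and for all, before any attempt touches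
them; every site which is not marked has `cl (k + 1) ≤ r x + f` at stage `k`; dead sites are marked.
A rejected update of a block leaves `r = th s - f`. The noise of a kill has the variance `s - f` instead
of `s`: density at most `(s / (s - f))^(1/2)` for each site, at most `2` for a whole attempt. No
attempts in super-stage `N`: if a block of level `N - 1` is bad then the value is at least one. -/
def Prt2Stmt : Prop :=
  ∀ (X : Type) [Fintype X] [DecidableEq X] (Γ : Geo X) (d : ℕ) (o : X) (th : ℝ≥0) (kk : ℕ → ℕ)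
    (cl : ℕ → ℝ≥0) (Kn Dn : ℕ → ℕ) (p π c W : ℕ → ℝ) (K e : ℝ) (φ : (X → ℝ) → ℝ)
    (ψ : X → (X → ℝ) → ℝ) (A : Ana Γ d o ∅ th kk cl Kn Dn p) (V₀ : X → ℝ) (m₁ : X → ℂ),
    Measurable φ → (∀ U, 0 ≤ φ U ∧ φ U ≤ 1) → (∀ x, Measurable (ψ x)) →
    (∀ x U, 0 ≤ ψ x U ∧ ψ x U ≤ K) → 0 ≤ e →
    GeoOk Γ d → Scl Γ d → 0 < th → th < 1 →
    (∀ n, 1 ≤ n →
      3 ^ d * Γ.J * (Kn n + 3 ^ d * Γ.J * (6 * Γ.L (n - 1) + 1) ^ d) ≤ Dn n) →
    kk 0 = 0 → (∀ n, kk n < kk (n + 1)) → (∀ k, cl (k + 1) = th * cl k) → 0 < cl 0 →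
    1 ≤ Γ.N → (∀ n, 0 ≤ p n) →
    -- the coins
    (∀ n, 2 * p n * ((kk (n + 1) : ℝ) - kk n + (Γ.L n : ℝ) ^ d) ≤ π n) → (∀ n, π n ≤ 1) →
    -- the densities of the kills
    (∀ n, 1 ≤ n → n < Γ.N →
      2 * (cl (kk (Γ.N + 1)) : ℝ) *
        (3 ^ d * Γ.J * (6 * Γ.L (n - 1) + 1) ^ d * (2 * Γ.ρ n + 1) ^ d) ≤ cl (kk (n + 1))) →
    -- the cost of one site in super-stage `n`
    (∀ n, 0 ≤ c n) →
    (∀ n, 1 ≤ n → n < Γ.N → ∀ (x : X) (a : X → ℝ) (r : X → ℝ≥0),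
      th * cl (kk n) ≤ r x + cl (kk (Γ.N + 1)) → ∫ U, ψ x U ∂(gm a r) ≤ c n) →
    -- the weights
    (∀ n, 0 ≤ W n) →
    (∀ n, 1 ≤ n → n < Γ.N → ∀ B,
      ((Γ.nbh (Γ.enl (n - 1) {B} 2) (Γ.ρ n)).card : ℝ) * c n ≤ W (n - 1)) →
    1 ≤ W (Γ.N - 1) → 1 ≤ W Γ.N → 1 ≤ W (Γ.N + 1) →
    -- the start and the end
    A.HS 0 0 ⟨V₀, fun _ => cl 0, m₁⟩ Finset.univ →
    (∀ (T : Cfg X) (run : Finset X), A.HS (Γ.N + 1) (kk (Γ.N + 1)) T run →
      Fc Γ kk cl Dn (Γ.N + 1) (kk (Γ.N + 1)) ∅ T run → (∀ x, x ∉ run → T.s x = 0) →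
      φ T.V ≤ e + ∑ x ∈ Finset.univ \ run, ψ x T.V) →
    ∫ U, φ U ∂(gm V₀ fun _ => cl 0 - cl (kk (Γ.N + 1))) ≤
      e + ∑ j ∈ Finset.range (Γ.N + 2), W j *
        ∑ B ∈ ({B | Γ.bl j B = B} : Finset X), H72.QQ Γ.ch Γ.J (fun i => π i.1) j B

end Pool.Agent.ACX
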