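import Pool.Agent.Helper16_CORE.Env0
import Pool.Agent.Helper28_ACX.Elim
import Pool.Agent.Helper97_ACE.Defs
import Pool.Agent.Helper67_ACX.EndZ
import Pool.Agent.Helper38_ACX.Weg
import Pool.Agent.Helper48_ACX.P6
import Pool.Agent.Helper72_ACS.Law
import Pool.Agent.Helper99_AND2B.WLP
import Pool.Agent.Helper54_AHH.IniV

/-!
# ACX (MP_1906c1_mp): the assembly: from the fields of the analysis to absolutely continuous spectrum

`one`: one environment: `P(c ≤ Im G_00 (E + i f)) ≥ 1/2` on the torus, `f` the last clock.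
`tor`: one sequence `f_n → 0` for all energies. `lat`: the same on the lattice. `acx`: the spectrum.
-/

set_option autoImplicit false

open MeasureTheory ProbabilityTheory Function Filter

open scoped BigOperators NNReal ENNReal Matrix Topology

noncomputable section

namespace Pool.Agent.ACX.TOP

open Pool.Agent.Anderson (Site L2 del)
open Pool.Agent.Helper54.Bal (G PP zz)
open Pool.Agent.Loc (gl)
open Pool.Agent.BED (Tor gau)
open Pool.Agent.AND2B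
open Pool.Agent.ANP
open Pool.Agent.LE.QD (rs)
open Pool.Agent.ACX.CORE (Fields core1)
open Pool.Agent.ACX.H38 (psi psi_rs psi_meas psi_nonneg psi_le psi_int2 psi_integrable)
open Pool.Agent.ACX.H67 (cL cU cL_pos cU_pos endZ)
open Pool.Agent.AHH (es)
open Pool.Agent.AHH.H54 (IniVP)

/-! ### The functional -/

section fun_

variable {d M : ℕ} [NeZero M]

/-- the number of the sites with `Im G_xx < c` -/
def sm (z : ℂ) (c : ℝ) (U : Tor d M → ℝ) : ℕ :=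
  (Finset.univ.filter fun x : Tor d M => (rs U z x x).im < c).card

/-- the fraction of the sites with `Im G_xx < c`, on the event `WL` -/
def ph (E L : ℝ) (z : ℂ) (c : ℝ) : (Tor d M → ℝ) → ℝ :=
  Set.indicator {U | WL E L U} fun U => (sm z c U : ℝ) / (Fintype.card (Tor d M) : ℝ)

theorem sm_le (z : ℂ) (c : ℝ) (U : Tor d M → ℝ) : sm z c U ≤ Fintype.card (Tor d M) :=
  Finset.card_le_univ _

theorem card_pos : (0 : ℝ) < (Fintype.card (Tor d M) : ℝ) := by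
  exact_mod_cast Fintype.card_pos

theorem ph_le (E L : ℝ) (z : ℂ) (c : ℝ) (U : Tor d M → ℝ) :
    ph E L z c U ≤ (sm z c U : ℝ) / (Fintype.card (Tor d M) : ℝ) :=
  Set.indicator_le_self' (fun _ _ => by positivity) U

theorem ph_bd (E L : ℝ) (z : ℂ) (c : ℝ) (U : Tor d M → ℝ) :
    0 ≤ ph E L z c U ∧ ph E L z c U ≤ 1 := by
  refine ⟨Set.indicator_nonneg (fun _ _ => by positivity) U, (ph_le E L z c U).trans ?_⟩
  rw [div_le_one card_pos]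
  exact_mod_cast sm_le z c U

theorem ph_out (E L : ℝ) (z : ℂ) (c : ℝ) (U : Tor d M → ℝ) (h : ¬ WL E L U) :
    ph E L z c U = 0 := Set.indicator_of_notMem h _

theorem sm_meas {z : ℂ} (hz : 0 < z.im) (c : ℝ) :
    Measurable fun U : Tor d M → ℝ => (sm z c U : ℝ) := by
  have h : (fun U : Tor d M → ℝ => (sm z c U : ℝ)) =
      fun U => ∑ x : Tor d M, (ACS.H72.Sm d M z c x).indicator (1 : (Tor d M → ℝ) → ℝ) U := by
    funext U
    unfold sm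
    rw [Finset.card_filter]
    push_cast
    refine Finset.sum_congr rfl fun x _ => ?_
    by_cases h : (rs U z x x).im < c
    · rw [if_pos h, Set.indicator_of_mem (show U ∈ ACS.H72.Sm d M z c x from h)]
      rfl
    · rw [if_neg h, Set.indicator_of_notMem (show U ∉ ACS.H72.Sm d M z c x from h)]
  rw [h]
  exact Finset.measurable_fun_sum _ fun x _ =>
    measurable_one.indicator (ACS.H72.meas_Sm hz c x)

theorem ph_meas (E L : ℝ) {z : ℂ} (hz : 0 < z.im) (c : ℝ) :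
    Measurable (ph (d := d) (M := M) E L z c) :=
  ((sm_meas hz c).div_const _).indicator (H99.msw d M E L)

/-- the mean of the functional bounds the probability at the origin -/
theorem mean (v : ℝ≥0) (E L : ℝ) {z : ℂ} (hz : 0 < z.im) (c : ℝ) :
    gau d M v {V | (rs V z 0 0).im < c} ≤
      ENNReal.ofReal (∫ U, ph E L z c U ∂(gau d M v)) + gau d M v {U | ¬ WL E L U} := by
  have hprob : IsProbabilityMeasure (gau d M v) := by
    unfold gau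
    infer_instance
  have h1 := ACS.H72.mean_le (d := d) (M := M) v hz c (H99.msw d M E L)
  have h2 : Integrable (ph (d := d) (M := M) E L z c) (gau d M v) := by
    refine Integrable.of_bound (ph_meas E L hz c).aestronglyMeasurable 1
      (Eventually.of_forall fun U => ?_)
    rw [Real.norm_eq_abs, abs_of_nonneg (ph_bd E L z c U).1]
    exact (ph_bd E L z c U).2
  rw [ofReal_integral_eq_lintegral_ofReal h2 (Eventually.of_forall fun U => (ph_bd E L z c U).1)]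
  refine h1.trans (add_le_add (le_of_eq ?_) le_rfl)
  refine lintegral_congr fun U => ?_
  by_cases hU : WL E L U
  · rw [Set.indicator_of_mem (show U ∈ {U | WL E L U} from hU)]
    unfold ph
    rw [Set.indicator_of_mem (show U ∈ {U | WL E L U} from hU), ENNReal.ofReal_div_of_pos card_pos,
      ENNReal.ofReal_natCast, ENNReal.ofReal_natCast]
    rfl
  · rw [Set.indicator_of_notMem (show U ∉ {U | WL E L U} from hU), ph_out E L z c U hU,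
      ENNReal.ofReal_zero]

end fun_

/-! ### One environment -/

/-- the deterministic end -/
def EndP {d : ℕ} (Z : Prd d) (c C : ℝ) (V : Env d) : Prop :=
  ∀ (n : ℕ) (T : Cfg V.X) (run : Finset V.X),
    Z.HS V n (V.kk (V.N + 1)) T run →
      (∀ x ∈ run, T.s x = V.cl (V.kk (V.N + 1))) → (∀ x, x ∉ run → T.s x = 0) →
      (((Finset.univ.filter fun x => (rs T.V ⟨V.E, (V.cl (V.kk (V.N + 1)) : ℝ)⟩ x x).im <
        cL c C).card : ℕ) : ℝ) ≤ ∑ b ∈ Finset.univ \ run,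
          (1 + cU c C * (rs T.V ⟨V.E, (V.cl (V.kk (V.N + 1)) : ℝ)⟩ b b).im)

/-- ONE ENVIRONMENT -/
theorem one {d : ℕ} {c C : ℝ} (hc : 0 < c) (hC : 1 ≤ C) (Z : Prd d) (V : Env d)
    (hth : 1 / 2 ≤ V.th) (hth1 : V.th < 1) (hw : 0 < V.w) (hS : V.Sc) (hN : 1 ≤ V.N)
    (hF : Fields Z V) (hI : IniVP Z V) (hE : EndP Z c C V) {π c' W : ℕ → ℝ}
    (hn : H34.Num8 d V.th V.J V.β V.w V.N V.μ V.kk V.l V.r 1 (2 * cU c C) π c' W)
    (hL : gau d (2 ^ V.μ) V.w {U | ¬ WL V.E V.L U} ≤ ENNReal.ofReal (1 / 16))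
    (ht : gm (fun _ : V.X => (0 : ℝ)) (fun _ => V.cl (V.kk (V.N + 1)))
      {V₀ | ¬ ∀ x, |V₀ x| ≤ (V.w : ℝ) ^ 2} ≤ ENNReal.ofReal (1 / 16)) :
    ENNReal.ofReal (1 / 2) ≤ gau d (2 ^ V.μ) V.w
      {U | cL c C ≤ (rs U ⟨V.E, (V.cl (V.kk (V.N + 1)) : ℝ)⟩ 0 0).im} := by
  have hth0 : 0 < V.th := lt_of_lt_of_le (by norm_num) hth
  obtain ⟨f, hf⟩ : ∃ f : ℝ≥0, f = V.cl (V.kk (V.N + 1)) := ⟨_, rfl⟩
  have hf0 : 0 < f := by
    rw [hf]
    unfold Env.cl AND2B.cl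
    positivity
  have hfr : (0 : ℝ) < f := by exact_mod_cast hf0
  have hz : 0 < (⟨V.E, (f : ℝ)⟩ : ℂ).im := hfr
  have hcU : 0 < cU c C := cU_pos hc hC
  have hX : (Fintype.card V.X : ℝ) = ((2 : ℝ) ^ V.μ) ^ d := H48.card_tor
  have hX0 : (0 : ℝ) < ((2 : ℝ) ^ V.μ) ^ d := by positivity
  have h1 : ∫ U, ph V.E V.L ⟨V.E, (f : ℝ)⟩ (cL c C) U ∂(gm (fun _ : V.X => 0) fun _ => V.w) ≤
      0 + 1 / 16 + (gm (fun _ : V.X => (0 : ℝ)) (fun _ => V.cl (V.kk (V.N + 1)))).real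
        {V₀ | ∃ x, (V.w : ℝ) ^ 2 < |V₀ x|} := by
    refine core1 Z V hth hth1 hw hS hN hF hn hn.sum
      (ph V.E V.L ⟨V.E, (f : ℝ)⟩ (cL c C))
      (fun x U => (1 + cU c C * psi V.E (f : ℝ) U x) / ((2 : ℝ) ^ V.μ) ^ d)
      (K := (1 + cU c C * (1 / f)) / ((2 : ℝ) ^ V.μ) ^ d)
      (ph_meas V.E V.L hz _) (ph_bd V.E V.L _ _) ?_ ?_ le_rfl (by norm_num) ?_
      (fun U hU => ph_out V.E V.L _ _ U hU) ((V.w : ℝ) ^ 2)
      (fun V₀ hV₀ => ⟨_, hI V₀ hV₀⟩) ?_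
    · intro x
      exact (((psi_meas V.E hfr x).const_mul _).const_add _).div_const _
    · intro x U
      have h2 := psi_nonneg V.E hfr U x
      have h3 := psi_le V.E hfr U x
      refine ⟨by positivity, ?_⟩
      gcongr
    · intro x a r hr
      have h2 := psi_int2 V.E hfr a r x hr
      have h3 : Integrable (fun U => psi V.E (f : ℝ) U x) (gm a r) := psi_integrable V.E hfr x _
      rw [integral_div, integral_add (integrable_const _) (h3.const_mul _), integral_const_mul]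
      have h4 : ∫ _ : V.X → ℝ, (1 : ℝ) ∂(gm a r) = 1 := by simp
      rw [h4]
      refine div_le_div_of_nonneg_right ?_ hX0.le
      have h5 : 2 * cU c C / Real.sqrt (r x) = cU c C * (2 / Real.sqrt (r x)) := by ring
      rw [h5]
      gcongr
    · intro T run hHS hFc hdead
      have h2 : ∀ x ∈ run, T.s x = V.cl (V.kk (V.N + 1)) := by
        intro x hx
        have h3 := hFc.runs x hx
        rw [if_neg (Finset.notMem_empty x)] at h3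
        exact h3
      have h3 := hE (V.N + 1) T run hHS h2 hdead
      rw [← hf] at h3
      refine (ph_le V.E V.L _ _ T.V).trans ?_
      rw [hX, zero_add, ← Finset.sum_div]
      refine div_le_div_of_nonneg_right ?_ hX0.le
      refine h3.trans (le_of_eq ?_)
      refine Finset.sum_congr rfl fun b _ => ?_
      rw [psi_rs]
  have h2 : (gm (fun _ : V.X => (0 : ℝ)) (fun _ => V.cl (V.kk (V.N + 1)))).real
      {V₀ | ∃ x, (V.w : ℝ) ^ 2 < |V₀ x|} ≤ 1 / 16 := by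
    have h3 : {V₀ : V.X → ℝ | ∃ x, (V.w : ℝ) ^ 2 < |V₀ x|} =
        {V₀ | ¬ ∀ x, |V₀ x| ≤ (V.w : ℝ) ^ 2} := by
      ext V₀
      simp only [Set.mem_ofPred_eq, not_forall, not_le]
    rw [h3]
    exact ENNReal.toReal_le_of_le_ofReal (by norm_num) ht
  have h3 : gm (fun _ : V.X => (0 : ℝ)) (fun _ => V.w) = gau d (2 ^ V.μ) V.w := rfl
  rw [h3] at h1
  have h4 := mean (d := d) (M := 2 ^ V.μ) V.w V.E V.L hz (cL c C)
  have h5 : gau d (2 ^ V.μ) V.w {U | (rs U ⟨V.E, (f : ℝ)⟩ 0 0).im < cL c C} ≤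
      ENNReal.ofReal (3 / 16) := by
    refine h4.trans ((add_le_add (ENNReal.ofReal_le_ofReal (q := 1 / 8) (by linarith)) hL).trans ?_)
    rw [← ENNReal.ofReal_add (by norm_num) (by norm_num)]
    norm_num
  have h6 := ACS.H72.ge_of_lt (v := V.w) hz (by norm_num : (0 : ℝ) ≤ 3 / 16) h5
  rw [← hf]
  exact (ENNReal.ofReal_le_ofReal (by norm_num)).trans h6

/-! ### The statements -/

/-- the nine fields -/
def NineStmt : Prop :=
  ∀ (d : ℕ) (a c C : ℝ), 3 ≤ d → 0 < a → 0 < c → c ≤ 1 / 2 → 1 ≤ C →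
    Ev d a es c C fun V => Fields (AHH.Z d a es c C) V

/-- IniV -/
def IniVStmt : Prop :=
  ∀ (d : ℕ) (a c C : ℝ), 3 ≤ d → 0 < a → 0 < c → c ≤ 1 / 2 → 1 ≤ C →
    Ev d a es c C fun V => IniVP (AHH.Z d a es c C) V

/-- TOR: THE RESULT ON THE TORUS -/
def TorStmt : Prop :=
  ∀ (d : ℕ) (a : ℝ), 3 ≤ d → 0 < a → ∃ s₀ c : ℝ, 0 < s₀ ∧ 0 < c ∧
    ∀ v : ℝ≥0, 0 < v → (v : ℝ) ≤ s₀ → ∃ (η : ℕ → ℝ) (μ : ℕ → ℕ), (∀ n, 0 < η n) ∧
      Tendsto η atTop (𝓝 0) ∧ (∀ n, 1 ≤ η n ^ 2 * ((2 ^ μ n : ℕ) : ℝ)) ∧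
      ∀ E : ℝ, |E| < 2 * d - a → ∀ᶠ n in atTop, ENNReal.ofReal (1 / 2) ≤
        gau d (2 ^ μ n) v {U | c ≤ (rs U ⟨E, η n⟩ 0 0).im}

/-- LAT: THE RESULT ON THE LATTICE -/
def LatStmt : Prop :=
  ∀ (d : ℕ) (a : ℝ), 3 ≤ d → 0 < a → ∃ s₀ : ℝ, 0 < s₀ ∧ ∀ σ : ℝ, σ ≠ 0 → |σ| ≤ s₀ →
    ∃ (c p : ℝ) (η : ℕ → ℝ), 0 < c ∧ 0 < p ∧ (∀ n, 0 < η n) ∧ Tendsto η atTop (𝓝 0) ∧
      ∀ E ∈ Set.Ioo (-(2 * (d : ℝ) - a)) (2 * d - a), ∀ᶠ n in atTop,
        ENNReal.ofReal p ≤ PP d (gl σ) {V | c ≤ (G V (zz (η n) E) (del 0) 0).im}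

/-- ACX: ABSOLUTELY CONTINUOUS SPECTRUM -/
def AcxStmt : Prop :=
  ∀ (d : ℕ) (a : ℝ), 3 ≤ d → 0 < a → ∃ s₀ : ℝ, 0 < s₀ ∧ ∀ σ : ℝ, σ ≠ 0 → |σ| ≤ s₀ →
    ∀ᵐ V ∂(PP d (gl σ)), ACE.ACIn V (-(2 * (d : ℝ) - a)) (2 * d - a)

/-! ### Elimination of `Ev`, with `c₁ ≤ 1` -/

theorem ev_elim1 {d : ℕ} {a es c C : ℝ} (hc : 0 < c) (hc' : c ≤ 1 / 2) (hC : 1 ≤ C)
    (hst : ∀ (M : ℕ) [NeZero M] (E η T : ℝ), |E| ≤ 2 * d - a → 0 < η → η ≤ T → T ≤ c →
      C / T ^ 2 ≤ M → ∃ m ζ : ℂ, ANI.Start2 d M E η T es m ζ c C)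
    {P : Env d → Prop} (hall : Ev d a es c C P) :
    ∃ (th : ℝ≥0) (c₁ : ℝ), 1 / 2 ≤ th ∧ th < 1 ∧ 0 < c₁ ∧ c₁ ≤ 1 ∧ ∀ (C₁ : ℝ) (α J : ℕ), 2 ≤ α →
      ∃ β w₀ : ℝ, 0 < β ∧ 0 < w₀ ∧ ∀ (w : ℝ≥0) (E : ℝ), 0 < w → (w : ℝ) ≤ w₀ →
      |E| < 2 * d - a → ∃ ε : ℝ, 0 < ε ∧ ∀ (A : ℝ) (R : ℕ), ∃ t₀ : ℝ, 0 < t₀ ∧
      ∀ t : ℝ, 0 < t → t ≤ t₀ → ∀ (N μ : ℕ) (kk l r Kn Dn : ℕ → ℕ),
        Scal d th c₁ C₁ α J β w t N μ kk l r Kn Dn → ∀ L : ℝ, 1 ≤ L →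
        ∃ (e₀ : ℝ) (m ζ : ℂ),
          (⟨th, c₁, C₁, α, J, β, w, E, ε, A, R, t, N, μ, kk, l, r, Kn, Dn, L, e₀, m, ζ⟩ :
            Env d).Good a es c C ∧
          P ⟨th, c₁, C₁, α, J, β, w, E, ε, A, R, t, N, μ, kk, l, r, Kn, Dn, L, e₀, m, ζ⟩ := by
  obtain ⟨τ₀, k₁, hτ, hk, hall⟩ := hall
  have hth1 : max (1 / 2 : ℝ) (1 - τ₀) < 1 := max_lt (by norm_num) (by linarith)
  have hth0 : (0 : ℝ) ≤ max (1 / 2 : ℝ) (1 - τ₀) := le_max_of_le_left (by norm_num)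
  set th : ℝ≥0 := ⟨max (1 / 2 : ℝ) (1 - τ₀), hth0⟩ with hth
  have hthc : (th : ℝ) = max (1 / 2 : ℝ) (1 - τ₀) := rfl
  have h1 : (1 / 2 : ℝ≥0) ≤ th := by
    rw [← NNReal.coe_le_coe, hthc]
    push_cast
    exact le_max_left _ _
  have h2 : 1 - τ₀ ≤ (th : ℝ) := by
    rw [hthc]
    exact le_max_right _ _
  have h3 : th < 1 := by
    rw [← NNReal.coe_lt_coe, hthc]
    push_cast
    exact hth1
  refine ⟨th, min k₁ 1, h1, h3, lt_min hk one_pos, min_le_right _ _, fun C₁ α J hα => ?_⟩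
  obtain ⟨β₀, w₀, hβ₀, hw₀, hall⟩ := hall th (min k₁ 1) h1 h2 h3 (lt_min hk one_pos)
    (min_le_left _ _) C₁ α J hα
  have hC0 : 0 < C := by linarith
  refine ⟨β₀, min w₀ (min c (1 / C)), hβ₀, lt_min hw₀ (lt_min hc (by positivity)), ?_⟩
  intro w E hw hw' hE
  have hwc : (w : ℝ) ≤ c := hw'.trans ((min_le_right _ _).trans (min_le_left _ _))
  have hwC : (w : ℝ) ≤ 1 / C := hw'.trans ((min_le_right _ _).trans (min_le_right _ _))
  have hw0 : (0 : ℝ) < w := by exact_mod_cast hw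
  obtain ⟨ε₀, hε₀, hall⟩ := hall β₀ w E hβ₀ le_rfl hw (hw'.trans (min_le_left _ _)) hE
  refine ⟨ε₀, hε₀, fun A R => ?_⟩
  obtain ⟨t₀, ht₀, hall⟩ := hall ε₀ hε₀ le_rfl A R
  refine ⟨t₀, ht₀, fun t ht htt N μ kk l r Kn Dn hS L hL => ?_⟩
  obtain ⟨e₁, he₁, hall⟩ := hall t ht htt N μ kk l r Kn Dn hS L hL
  have he : 0 < min e₁ w := lt_min he₁ hw0
  have hM := H28.torus_large (C := C) (lt_of_lt_of_le (by norm_num) h1) h3 hw (by linarith) hC0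
    hwC hS
  obtain ⟨m, ζ, hm⟩ := hst (2 ^ μ) E (min e₁ w) w hE.le he (min_le_right _ _) hwc hM
  refine ⟨min e₁ w, m, ζ, ?_, hall (min e₁ w) he (min_le_left _ _) m ζ hm⟩
  exact ⟨⟨⟨h1, h3⟩, lt_min hk one_pos, hα, hβ₀, hw, hE, hε₀, ht, hS, hL⟩, he, hm⟩

/-! ### The torus -/

theorem tor (hStb : ANI.StbStmt) (nine : NineStmt) (iniV : IniVStmt) : TorStmt := by
  intro d a hd ha
  obtain ⟨c, C, hc, hc', hC, hst⟩ := hStb d a es hd ha (by norm_num [es]) (by norm_num [es])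
  have hall : Ev d a es c C fun V => (Fields (AHH.Z d a es c C) V ∧ IniVP (AHH.Z d a es c C) V) ∧
      EndP (AHH.Z d a es c C) c C V :=
    ((nine d a c C hd ha hc hc' hC).and (iniV d a c C hd ha hc hc' hC)).and
      (endZ d a es c C hc hc' hC)
  obtain ⟨th, c₁, h1, h2, h3, h4, hall⟩ := ev_elim1 hc hc' hC hst hall
  obtain ⟨C₁, α, J, hα, hp8⟩ := H34.p8 d th c₁ hd h1 h2 h3 h4
  obtain ⟨β, w₀, hβ, hw₀, hall⟩ := hall C₁ α J (by omega)
  have hcU : 0 < cU c C := cU_pos hc hC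
  obtain ⟨w₁, hw₁, hw₁1, hp8⟩ := hp8 β hβ 1 (2 * cU c C) zero_le_one (by positivity)
  refine ⟨min w₀ w₁, cL c C, lt_min hw₀ hw₁, cL_pos hc hC, fun v hv hvs => ?_⟩
  have hv0 : (0 : ℝ) < v := by exact_mod_cast hv
  have hth0 : 0 < th := lt_of_lt_of_le (by norm_num) h1
  obtain ⟨t₁, ht₁, ht₁1, htail⟩ := H48.start_tail d (v : ℝ) (C₁ * (α + 1)) hv0
  have hsc : ∀ n : ℕ, ∃ (N μ : ℕ) (kk l r Kn Dn : ℕ → ℕ), 2 ≤ N ∧
      Scal d th c₁ C₁ α J β v (min t₁ (1 / ((n : ℝ) + 1))) N μ kk l r Kn Dn ∧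
      ∃ π c' W : ℕ → ℝ, H34.Num8 d th J β v N μ kk l r 1 (2 * cU c C) π c' W := by
    intro n
    obtain ⟨N, μ, kk, l, r, Kn, Dn, g1, -, g2, g3⟩ := hp8 v (min t₁ (1 / ((n : ℝ) + 1))) 1 hv
      (hvs.trans (min_le_right _ _)) (lt_min ht₁ (by positivity))
    exact ⟨N, μ, kk, l, r, Kn, Dn, g1, g2, g3⟩
  choose N μ kk l r Kn Dn hN hS π c' W hnum using hsc
  have hfpos : ∀ n, 0 < cl v th (kk n (N n + 1)) := fun n => by
    unfold AND2B.cl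
    positivity
  have hfr : ∀ n, (0 : ℝ) < cl v th (kk n (N n + 1)) := fun n => by exact_mod_cast hfpos n
  have hfle : ∀ n, (cl v th (kk n (N n + 1)) : ℝ) ≤ min t₁ (1 / ((n : ℝ) + 1)) := fun n =>
    (hS n).fin
  refine ⟨fun n => (cl v th (kk n (N n + 1)) : ℝ), μ, hfr, ?_, ?_, ?_⟩
  · refine squeeze_zero (fun n => (hfr n).le) (fun n => (hfle n).trans (min_le_right _ _))
      tendsto_one_div_add_atTop_nhds_zero_nat
  · intro n
    have g1 := (hS n).mN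
    have g2 : (cl v th (kk n (N n + 1)) : ℝ) ≤ 1 := (hfle n).trans ((min_le_left _ _).trans ht₁1)
    have g3 : (1 : ℝ) ≤ (cl v th (kk n (N n + 1)) : ℝ) ^ 2 *
        (cl v th (kk n (N n + 1)) : ℝ) ^ (-(5 : ℝ)) := by
      rw [← Real.rpow_natCast, ← Real.rpow_add (hfr n)]
      refine Real.one_le_rpow_of_pos_of_le_one_of_nonpos (hfr n) g2 ?_
      norm_num
    have g4 : ((2 ^ μ n : ℕ) : ℝ) = (2 : ℝ) ^ μ n := by push_cast; rfl
    rw [g4]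
    refine g3.trans (mul_le_mul_of_nonneg_left g1 (by positivity))
  · intro E hE
    obtain ⟨ε, hε, hall⟩ := hall v E hv (hvs.trans (min_le_left _ _)) hE
    obtain ⟨t₀, ht₀, hall⟩ := hall 0 0
    have hev : ∀ᶠ n : ℕ in atTop, 1 / ((n : ℝ) + 1) ≤ t₀ :=
      tendsto_one_div_add_atTop_nhds_zero_nat.eventually (ge_mem_nhds ht₀)
    filter_upwards [hev] with n hn
    obtain ⟨L, hL, hWL⟩ := H99.wlp d (2 ^ μ n) E (1 / 16) v hv.ne' (by norm_num)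
    obtain ⟨e₀, m, ζ, hG, ⟨hF, hI⟩, hEn⟩ := hall (min t₁ (1 / ((n : ℝ) + 1)))
      (lt_min ht₁ (by positivity)) ((min_le_right _ _).trans hn) (N n) (μ n) (kk n) (l n) (r n)
      (Kn n) (Dn n) (hS n) L hL
    refine one hc hC (AHH.Z d a es c C) _ h1 h2 hv (hS n) (by have := hN n; exact le_trans (by norm_num) this) hF hI hEn (hnum n) hWL ?_
    exact htail _ (μ n) (hfpos n) ((hfle n).trans (min_le_left _ _)) (hS n).mU

/-! ### The lattice -/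

theorem lat (h : TorStmt) : LatStmt := by
  intro d a hd ha
  obtain ⟨s₀, c, hs₀, hc, h⟩ := h d a hd ha
  refine ⟨Real.sqrt s₀, Real.sqrt_pos.2 hs₀, fun σ hσ hσ' => ?_⟩
  have h2 : σ ^ 2 ≤ s₀ := by
    rw [← sq_abs]
    calc |σ| ^ 2 ≤ Real.sqrt s₀ ^ 2 := by gcongr
      _ = s₀ := Real.sq_sqrt hs₀.le
  obtain ⟨v, hv⟩ : ∃ v : ℝ≥0, (v : ℝ) = σ ^ 2 := ⟨⟨σ ^ 2, sq_nonneg σ⟩, rfl⟩
  have hv0 : 0 < v := by
    rw [← NNReal.coe_pos, hv]
    positivity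
  obtain ⟨η, μ, hη, hlim, hM, h⟩ := h v hv0 (by rw [hv]; exact h2)
  refine ⟨c / 2, 1 / 2, η, by positivity, by norm_num, hη, hlim, ?_⟩
  refine ACS.H72.lawS (d := d) (σ := σ) (c := c) (p := 1 / 2) hσ hc (η := η)
    (M := fun n => 2 ^ μ n) (fun n => inferInstance) hη hlim hM ?_
  intro E hE
  have hE' : |E| < 2 * d - a := abs_lt.2 hE
  filter_upwards [h E hE'] with n hn
  intro v' hv'
  have : v' = v := NNReal.coe_injective (by rw [hv', hv])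
  subst this
  exact hn

/-- the spectrum -/
theorem acx (h : LatStmt) (hA : ACE.AceStmt) : AcxStmt := by
  intro d a hd ha
  obtain ⟨s₀, hs₀, h⟩ := h d a hd ha
  refine ⟨s₀, hs₀, fun σ hσ hσ' => ?_⟩
  obtain ⟨c, p, η, hc, hp, hη, hlim, h⟩ := h σ hσ hσ'
  refine hA d σ _ _ (by omega) hσ ⟨η, hη, hlim, ?_⟩
  refine (ae_restrict_iff' measurableSet_Ioo).2 (Eventually.of_forall fun E hE => ?_)
  exact ⟨c, ENNReal.ofReal p, hc, (ENNReal.ofReal_pos.2 hp).ne', h E hE⟩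

end Pool.Agent.ACX.TOP
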